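import Pool.Agent.W667.DT.Stms

/-!
# Project DT: functoriality of the iterated kernel modules (`S_KM`)
-/

set_option autoImplicit false
set_option maxSynthPendingDepth 3
set_option linter.unusedSectionVars false
set_option linter.unusedVariables false

namespace Pool.Agent.W565.DT

open Pool.Agent.Helper832.GD Pool.Agent.Helper832.GD.Bim ContinuousLinearMap Topology Filter
open Pool.Agent.W667.DT

noncomputable section

/-! ### tensor products -/

section Tn

variable {P Q P' Q' P'' Q'' : Type} [NormedAddCommGroup P] [NormedSpace ℂ P]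
  [NormedAddCommGroup Q] [NormedSpace ℂ Q] [NormedAddCommGroup P'] [NormedSpace ℂ P']
  [NormedAddCommGroup Q'] [NormedSpace ℂ Q'] [NormedAddCommGroup P''] [NormedSpace ℂ P'']
  [NormedAddCommGroup Q''] [NormedSpace ℂ Q'']

/-- a closed subspace containing the elementary tensors is everything -/
theorem tens_dense (N : Submodule ℂ (Tens P Q)) (hN : IsClosed (N : Set (Tens P Q)))
    (h : ∀ p q, tens p q ∈ N) (t : Tens P Q) : t ∈ N := by
  have hle : (spanTm P Q : Set (BD P Q)) ⊆ (tensSub P Q : Set (BD P Q)) :=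
    Submodule.le_topologicalClosure _
  have hd : DenseRange (Set.inclusion hle) := by
    rw [denseRange_inclusion_iff]
    exact le_of_eq rfl
  have hx : ∀ x (hx : x ∈ spanTm P Q), mkT x (hle hx) ∈ N := by
    intro x hx
    have hx' : x ∈ Submodule.span ℂ (Set.range (fun pq : P × Q => tm pq.1 pq.2)) := hx
    induction hx' using Submodule.span_induction with
    | mem y hy =>
      obtain ⟨⟨p, q⟩, rfl⟩ := hy
      exact h p q
    | zero => exact N.zero_mem
    | add y z hy hz h1 h2 =>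
      have := N.add_mem (h1 hy) (h2 hz)
      exact this
    | smul c y hy h1 =>
      have := N.smul_mem c (h1 hy)
      exact this
  exact hd.induction_on (p := fun x => x ∈ N) t hN fun x => hx x.1 x.2

theorem norm_tmapL_le (u : P →L[ℂ] P') (v : Q →L[ℂ] Q') (hu : ‖u‖ ≤ 1) (hv : ‖v‖ ≤ 1) :
    ‖tmapL u v‖ ≤ 1 := by
  have h1 : ‖(tmapL : (P →L[ℂ] P') →L[ℂ] (Q →L[ℂ] Q') →L[ℂ] (Tens P Q →L[ℂ] Tens P' Q'))‖ ≤ 1 :=
    LinearMap.mkContinuous₂_norm_le _ zero_le_one _
  have h2 := (tmapL : (P →L[ℂ] P') →L[ℂ] (Q →L[ℂ] Q') →L[ℂ]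
    (Tens P Q →L[ℂ] Tens P' Q')).le_opNorm₂ u v
  refine h2.trans ?_
  have h3 : ‖(tmapL : (P →L[ℂ] P') →L[ℂ] (Q →L[ℂ] Q') →L[ℂ] (Tens P Q →L[ℂ] Tens P' Q'))‖ * ‖u‖ ≤
      1 := mul_le_one₀ h1 (norm_nonneg _) hu
  exact mul_le_one₀ h3 (norm_nonneg _) hv

/-- convergence and bilinear maps -/
theorem bil_tendsto {E F G : Type} [NormedAddCommGroup E] [NormedSpace ℂ E]
    [NormedAddCommGroup F] [NormedSpace ℂ F] [NormedAddCommGroup G] [NormedSpace ℂ G]
    {ι : Type} {L : Filter ι} (B : E →L[ℂ] F →L[ℂ] G) {u : ι → E} {v : ι → F} {u0 : E} {v0 : F}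
    (hu : Tendsto u L (𝓝 u0)) (hv : Tendsto v L (𝓝 v0)) :
    Tendsto (fun i => B (u i) (v i)) L (𝓝 (B u0 v0)) := by
  have h1 : Tendsto (fun i => B (u i)) L (𝓝 (B u0)) := (B.continuous.tendsto u0).comp hu
  exact ((isBoundedBilinearMap_apply (𝕜 := ℂ) (E := F) (F := G)).continuous.tendsto
    (B u0, v0)).comp (h1.prodMk_nhds hv)

/-- strong convergence holds on a closed set -/
theorem closed_conv {E F : Type} [NormedAddCommGroup E] [NormedSpace ℂ E]
    [NormedAddCommGroup F] [NormedSpace ℂ F] {ι : Type} (L : Filter ι) (T : ι → E →L[ℂ] F)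
    (T0 : E →L[ℂ] F) (hT : ∀ i, ‖T i‖ ≤ 1) :
    IsClosed {t | Tendsto (fun i => T i t) L (𝓝 (T0 t))} := by
  rw [← isSeqClosed_iff_isClosed]
  intro x x0 hx hx0
  show Tendsto (fun i => T i x0) L (𝓝 (T0 x0))
  rw [Metric.tendsto_nhds]
  intro ε hε
  have hM0 : 0 ≤ ‖T0‖ := norm_nonneg _
  have hc : 0 < ε / (2 * (1 + ‖T0‖)) := by positivity
  obtain ⟨n, hn⟩ := (Metric.tendsto_atTop.1 hx0 _ hc)
  have hn := hn n le_rfl
  have h1 := Metric.tendsto_nhds.1 (hx n) (ε / 2) (by positivity)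
  filter_upwards [h1] with i hi
  rw [dist_eq_norm] at hi hn ⊢
  have e : T i x0 - T0 x0 = -(T i (x n - x0)) + (T i (x n) - T0 (x n)) + T0 (x n - x0) := by
    simp only [map_sub]
    abel
  rw [e]
  have h2 : ‖T i (x n - x0)‖ ≤ ‖x n - x0‖ := by
    have := (T i).le_of_opNorm_le (hT i) (x n - x0)
    rwa [one_mul] at this
  have h3 : ‖T0 (x n - x0)‖ ≤ ‖T0‖ * ‖x n - x0‖ := T0.le_opNorm _
  have h4 : (1 + ‖T0‖) * ‖x n - x0‖ < ε / 2 := by
    have := mul_lt_mul_of_pos_left hn (by linarith : 0 < 1 + ‖T0‖)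
    have e2 : (1 + ‖T0‖) * (ε / (2 * (1 + ‖T0‖))) = ε / 2 := by
      field_simp
    linarith
  have h5 := norm_add₃_le (a := -(T i (x n - x0))) (b := T i (x n) - T0 (x n))
    (c := T0 (x n - x0))
  rw [norm_neg] at h5
  linarith

/-- strong convergence -/
theorem tmapL_tendsto {ι : Type} (L : Filter ι) (u : ι → P →L[ℂ] P') (u0 : P →L[ℂ] P')
    (v : ι → Q →L[ℂ] Q') (v0 : Q →L[ℂ] Q') (hu : ∀ i, ‖u i‖ ≤ 1) (hv : ∀ i, ‖v i‖ ≤ 1)
    (hu0 : ∀ p, Tendsto (fun i => u i p) L (𝓝 (u0 p)))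
    (hv0 : ∀ q, Tendsto (fun i => v i q) L (𝓝 (v0 q))) (t : Tens P Q) :
    Tendsto (fun i => tmapL (u i) (v i) t) L (𝓝 (tmapL u0 v0 t)) := by
  let N : Submodule ℂ (Tens P Q) :=
    { carrier := {t | Tendsto (fun i => tmapL (u i) (v i) t) L (𝓝 (tmapL u0 v0 t))}
      add_mem' := by
        intro a b ha hb
        show Tendsto (fun i => tmapL (u i) (v i) (a + b)) L (𝓝 (tmapL u0 v0 (a + b)))
        simp only [map_add]
        exact Tendsto.add ha hb
      zero_mem' := by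
        show Tendsto (fun i => tmapL (u i) (v i) 0) L (𝓝 (tmapL u0 v0 0))
        simp only [map_zero]
        exact tendsto_const_nhds
      smul_mem' := by
        intro c a ha
        show Tendsto (fun i => tmapL (u i) (v i) (c • a)) L (𝓝 (tmapL u0 v0 (c • a)))
        simp only [map_smul]
        exact Tendsto.const_smul ha c }
  refine tens_dense N ?_ ?_ t
  · exact closed_conv L (fun i => tmapL (u i) (v i)) (tmapL u0 v0)
      fun i => norm_tmapL_le _ _ (hu i) (hv i)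
  · intro p q
    show Tendsto (fun i => tmapL (u i) (v i) (tens p q)) L (𝓝 (tmapL u0 v0 (tens p q)))
    simp only [tmapL_tens]
    exact bil_tendsto (tens : P' →L[ℂ] Q' →L[ℂ] Tens P' Q') (hu0 p) (hv0 q)

/-- finite rank -/
theorem tmapL_finite (u : P →L[ℂ] P') (v : Q →L[ℂ] Q')
    (hu : FiniteDimensional ℂ (LinearMap.range u.toLinearMap))
    (hv : FiniteDimensional ℂ (LinearMap.range v.toLinearMap)) :
    FiniteDimensional ℂ (LinearMap.range (tmapL u v).toLinearMap) := by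
  let T : P' →ₗ[ℂ] Q' →ₗ[ℂ] Tens P' Q' :=
    LinearMap.mk₂ ℂ (fun p q => (tens p q : Tens P' Q')) (fun a b y => by simp)
      (fun c a y => by simp) (fun a y z => by simp) (fun c a y => by simp)
  let N : Submodule ℂ (Tens P' Q') :=
    Submodule.map₂ T (LinearMap.range u.toLinearMap) (LinearMap.range v.toLinearMap)
  have hNfg : N.FG := Submodule.FG.map₂ T ((Submodule.fg_iff_finiteDimensional _).2 hu)
    ((Submodule.fg_iff_finiteDimensional _).2 hv)
  have : FiniteDimensional ℂ N := (Submodule.fg_iff_finiteDimensional _).1 hNfg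
  have hcl : IsClosed (N : Set (Tens P' Q')) := Submodule.closed_of_finiteDimensional N
  have hall : ∀ t, t ∈ N.comap (tmapL u v).toLinearMap := by
    refine tens_dense _ (hcl.preimage (tmapL u v).continuous) ?_
    intro p q
    show tmapL u v (tens p q) ∈ N
    rw [tmapL_tens]
    exact Submodule.apply_mem_map₂ T (LinearMap.mem_range_self u.toLinearMap p)
      (LinearMap.mem_range_self v.toLinearMap q)
  refine Submodule.finiteDimensional_of_le (S₂ := N) ?_
  rintro _ ⟨t, rfl⟩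
  exact hall t

end Tn

section Km

variable {A A' A'' : Type} [NonUnitalNormedRing A] [NormedSpace ℂ A] [IsScalarTower ℂ A A]
  [SMulCommClass ℂ A A] [CompleteSpace A] [NonUnitalNormedRing A'] [NormedSpace ℂ A']
  [IsScalarTower ℂ A' A'] [SMulCommClass ℂ A' A'] [CompleteSpace A']
  [NonUnitalNormedRing A''] [NormedSpace ℂ A'']
  [IsScalarTower ℂ A'' A''] [SMulCommClass ℂ A'' A''] [CompleteSpace A'']

/-- `pmap` with the types made explicit -/
def pm (φ : A →L[ℂ] A') : Plus A →L[ℂ] Plus A' := pmap φ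

theorem pm_fst (φ : A →L[ℂ] A') (x : Plus A) : (pm φ x).fst = x.fst := by
  show x.fst * 1 + 0 = x.fst
  rw [mul_one, add_zero]

theorem pm_snd (φ : A →L[ℂ] A') (x : Plus A) : (pm φ x).snd = φ x.snd := by
  show x.fst • (0 : A') + φ x.snd = φ x.snd
  rw [smul_zero, zero_add]

theorem pm_left (φ : A →L[ℂ] A') (hφ : ∀ a b, φ (a * b) = φ a * φ b) (a : A) (x : Plus A) :
    pm φ (plusLeft a x) = plusLeft (φ a) (pm φ x) := by
  refine plus_ext ?_ ?_
  · rw [pm_fst]
    rfl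
  · rw [pm_snd]
    show φ (x.fst • a + a * x.snd) = (pm φ x).fst • φ a + φ a * (pm φ x).snd
    rw [pm_fst, pm_snd, map_add, map_smul, hφ]

theorem pm_right (φ : A →L[ℂ] A') (hφ : ∀ a b, φ (a * b) = φ a * φ b) (a : A) (x : Plus A) :
    pm φ (plusRight a x) = plusRight (φ a) (pm φ x) := by
  refine plus_ext ?_ ?_
  · rw [pm_fst]
    rfl
  · rw [pm_snd]
    show φ (x.fst • a + x.snd * a) = (pm φ x).fst • φ a + (pm φ x).snd * φ a
    rw [pm_fst, pm_snd, map_add, map_smul, hφ]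

theorem K_step_left (X : Bim A A) (X' : Bim A' A') (φ : A →L[ℂ] A')
    (hφ : ∀ a b, φ (a * b) = φ a * φ b) (f : X.carrier →L[ℂ] X'.carrier)
    (hf : ∀ a x, f (X.left a x) = X'.left (φ a) (f x)) (a : A) (t : Tens A X.carrier) :
    tmapL φ f (X.fLeft a t - X.gLeft a t) =
      X'.fLeft (φ a) (tmapL φ f t) - X'.gLeft (φ a) (tmapL φ f t) := by
  have : (tmapL φ f).comp (X.fLeft a - X.gLeft a) =
      (X'.fLeft (φ a) - X'.gLeft (φ a)).comp (tmapL φ f) := by
    refine tens_ext fun b y => ?_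
    simp only [comp_apply, sub_apply, fLeft_tens, gLeft_tens, map_sub, tmapL_tens, hφ, hf]
  exact congrArg (fun g : Tens A X.carrier →L[ℂ] Tens A' X'.carrier => g t) this

theorem K_step_right (X : Bim A A) (X' : Bim A' A') (φ : A →L[ℂ] A')
    (f : X.carrier →L[ℂ] X'.carrier)
    (hf : ∀ a x, f (X.right a x) = X'.right (φ a) (f x)) (a : A) (t : Tens A X.carrier) :
    tmapL φ f (X.tRight a t) = X'.tRight (φ a) (tmapL φ f t) := by
  have : (tmapL φ f).comp (X.tRight a) = (X'.tRight (φ a)).comp (tmapL φ f) := by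
    refine tens_ext fun b y => ?_
    simp only [comp_apply, Bim.tRight_tens, tmapL_tens, hf]
  exact congrArg (fun g : Tens A X.carrier →L[ℂ] Tens A' X'.carrier => g t) this

theorem km_hom (φ : A →L[ℂ] A') (hφ : ∀ a b, φ (a * b) = φ a * φ b) (n : ℕ) :
    (∀ a x, km φ n ((Kp n (plusBim A)).left a x)
      = (Kp n (plusBim A')).left (φ a) (km φ n x)) ∧
    (∀ a x, km φ n ((Kp n (plusBim A)).right a x)
      = (Kp n (plusBim A')).right (φ a) (km φ n x)) := by
  induction n with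
  | zero => exact ⟨fun a x => pm_left φ hφ a x, fun a x => pm_right φ hφ a x⟩
  | succ n ih =>
    exact ⟨fun a x => K_step_left (Kp n (plusBim A)) (Kp n (plusBim A')) φ hφ (km φ n) ih.1 a x,
      fun a x => K_step_right (Kp n (plusBim A)) (Kp n (plusBim A')) φ (km φ n) ih.2 a x⟩

theorem pm_norm (φ : A →L[ℂ] A') (hφ : ‖φ‖ ≤ 1) (x : Plus A) :
    ‖pm φ x‖ ≤ 1 * ‖x‖ := by
  rw [plus_norm, plus_norm, pm_fst, pm_snd, one_mul]
  have := φ.le_of_opNorm_le hφ x.snd
  rw [one_mul] at this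
  linarith

theorem km_norm (φ : A →L[ℂ] A') (hφ : ‖φ‖ ≤ 1) (n : ℕ) : ‖km φ n‖ ≤ 1 := by
  induction n with
  | zero =>
    refine ContinuousLinearMap.opNorm_le_bound _ zero_le_one fun x => ?_
    exact pm_norm φ hφ x
  | succ n ih => exact norm_tmapL_le _ _ hφ ih

theorem pm_comp (φ : A →L[ℂ] A') (ψ : A' →L[ℂ] A'') (x : Plus A) :
    pm (ψ.comp φ) x = pm ψ (pm φ x) := by
  refine plus_ext ?_ ?_
  · rw [pm_fst, pm_fst, pm_fst]
  · rw [pm_snd, pm_snd, pm_snd]
    rfl

theorem pm_id (x : Plus A) : pm (ContinuousLinearMap.id ℂ A) x = x := by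
  refine plus_ext ?_ ?_
  · rw [pm_fst]
  · rw [pm_snd]
    rfl

theorem tmapL_comp {P Q P' Q' P'' Q'' : Type} [NormedAddCommGroup P] [NormedSpace ℂ P]
    [NormedAddCommGroup Q] [NormedSpace ℂ Q] [NormedAddCommGroup P'] [NormedSpace ℂ P']
    [NormedAddCommGroup Q'] [NormedSpace ℂ Q'] [NormedAddCommGroup P''] [NormedSpace ℂ P'']
    [NormedAddCommGroup Q''] [NormedSpace ℂ Q''] (f : P →L[ℂ] P') (f' : P' →L[ℂ] P'')
    (g : Q →L[ℂ] Q') (g' : Q' →L[ℂ] Q'') (h : Q →L[ℂ] Q'') (hh : ∀ q, h q = g' (g q))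
    (t : Tens P Q) : tmapL (f'.comp f) h t = tmapL f' g' (tmapL f g t) := by
  have : tmapL (f'.comp f) h = (tmapL f' g').comp (tmapL f g) := by
    refine tens_ext fun b y => ?_
    simp only [comp_apply, tmapL_tens, hh]
  rw [this]
  rfl

theorem tmapL_id {P Q : Type} [NormedAddCommGroup P] [NormedSpace ℂ P]
    [NormedAddCommGroup Q] [NormedSpace ℂ Q] (h : Q →L[ℂ] Q) (hh : ∀ q, h q = q)
    (t : Tens P Q) : tmapL (ContinuousLinearMap.id ℂ P) h t = t := by
  have : tmapL (ContinuousLinearMap.id ℂ P) h = ContinuousLinearMap.id ℂ (Tens P Q) := by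
    refine tens_ext fun b y => ?_
    simp only [tmapL_tens, hh, ContinuousLinearMap.id_apply]
  rw [this]
  rfl

theorem km_comp (φ : A →L[ℂ] A') (ψ : A' →L[ℂ] A'') (n : ℕ) :
    ∀ x, km (ψ.comp φ) n x = km ψ n (km φ n x) := by
  induction n with
  | zero => exact fun x => pm_comp φ ψ x
  | succ n ih => exact fun x => tmapL_comp φ ψ (km φ n) (km ψ n) (km (ψ.comp φ) n) ih x

theorem km_id (n : ℕ) : ∀ x, km (ContinuousLinearMap.id ℂ A) n x = x := by
  induction n with
  | zero => exact fun x => pm_id x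
  | succ n ih => exact fun x => tmapL_id (km (ContinuousLinearMap.id ℂ A) n) ih x

theorem pm_tendsto {ι : Type} (L : Filter ι) (φ : ι → A →L[ℂ] A') (φ₀ : A →L[ℂ] A')
    (h2 : ∀ a, Tendsto (fun i => φ i a) L (𝓝 (φ₀ a))) (x : Plus A) :
    Tendsto (fun i => pm (φ i) x) L (𝓝 (pm φ₀ x)) := by
  have e : ∀ ψ : A →L[ℂ] A', pm ψ x = (pfst A x) • pone A' + pin A' (ψ (psnd A x)) :=
    fun ψ => rfl
  simp only [e]
  exact tendsto_const_nhds.add (((pin A').continuous.tendsto _).comp (h2 _))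

theorem km_tendsto (ι : Type) (L : Filter ι) (φ : ι → A →L[ℂ] A') (φ₀ : A →L[ℂ] A')
    (h1 : ∀ i, ‖φ i‖ ≤ 1) (h2 : ∀ a, Tendsto (fun i => φ i a) L (𝓝 (φ₀ a))) (n : ℕ) :
    ∀ x, Tendsto (fun i => km (φ i) n x) L (𝓝 (km φ₀ n x)) := by
  induction n with
  | zero => exact fun x => pm_tendsto L φ φ₀ h2 x
  | succ n ih =>
    intro x
    exact tmapL_tendsto L φ φ₀ (fun i => km (φ i) n) (km φ₀ n) h1 (fun i => km_norm _ (h1 i) n)
      h2 ih x

theorem pm_finite (φ : A →L[ℂ] A') (hφ : FiniteDimensional ℂ (LinearMap.range φ.toLinearMap)) :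
    FiniteDimensional ℂ (LinearMap.range (pm φ).toLinearMap) := by
  let N : Submodule ℂ (Plus A') := Submodule.span ℂ {pone A'} ⊔
    (LinearMap.range φ.toLinearMap).map (pin A').toLinearMap
  have : FiniteDimensional ℂ N := inferInstance
  have h : LinearMap.range (pm φ).toLinearMap ≤ N := by
    rintro _ ⟨x, rfl⟩
    have e : (pm φ).toLinearMap x = (pfst A x) • pone A' + pin A' (φ (psnd A x)) := rfl
    rw [e]
    refine Submodule.add_mem_sup (Submodule.smul_mem _ _ (Submodule.mem_span_singleton_self _)) ?_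
    exact Submodule.mem_map_of_mem (LinearMap.mem_range_self φ.toLinearMap _)
  exact Submodule.finiteDimensional_of_le h

theorem km_finite (φ : A →L[ℂ] A') (hφ : FiniteDimensional ℂ (LinearMap.range φ.toLinearMap))
    (n : ℕ) : FiniteDimensional ℂ (LinearMap.range (km φ n).toLinearMap) := by
  induction n with
  | zero => exact pm_finite φ hφ
  | succ n ih => exact tmapL_finite φ (km φ n) hφ ih

end Km

theorem km_props : S_KM := by
  intro A A' A'' _ _ _ _ _ _ _ _ _ _ _ _ _ _ _ n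
  exact ⟨fun φ hφ => km_hom φ hφ n, fun φ hφ => km_norm φ hφ n, fun φ ψ x => km_comp φ ψ n x,
    fun x => km_id n x, fun ι L φ φ₀ h1 h2 x => km_tendsto ι L φ φ₀ h1 h2 n x,
    fun φ hφ => km_finite φ hφ n⟩

end

end Pool.Agent.W565.DT
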