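import Pool.Agent.W667.DT.Stms

/-!
# Project DT: from the algebra to its unitization (`S_PLUS`)
-/

set_option autoImplicit false
set_option maxSynthPendingDepth 3
set_option linter.unusedSectionVars false
set_option linter.unusedVariables false

namespace Pool.Agent.W565.DT

open Pool.Agent.Helper832.GD Pool.Agent.Helper832.GD.Bim ContinuousLinearMap Topology Filter
open Pool.Agent.W667.DT

noncomputable section

variable (Ω : Type) [TopologicalSpace Ω] [CompactSpace Ω] [T2Space Ω]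

/-- the scalars with the zero actions -/
def T0 : Bim C(Ω, ℂ) C(Ω, ℂ) where
  carrier := ℂ
  left := 0
  right := 0
  left_mul := fun _ _ _ => rfl
  right_mul := fun _ _ _ => rfl
  left_right := fun _ _ _ => rfl

/-- the number `1` as an element of `T0` -/
def t1 : (T0 Ω).carrier := (1 : ℂ)

lemma T0_smul (c : (T0 Ω).carrier) : c = (show ℂ from c) • t1 Ω :=
  (mul_one (M := ℂ) c).symm

lemma T0_projective : (T0 Ω).Projective := by
  intro Y Z σ φ hσ hσ' hφ
  obtain ⟨g, hg⟩ := hσ'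
  set z : Z.carrier := φ (t1 Ω) with hz
  have hzl : ∀ a, Z.left a z = 0 := fun a => by
    rw [hz, ← hφ.1 a (t1 Ω)]
    exact map_zero φ
  have hzr : ∀ a, Z.right a z = 0 := fun a => by
    rw [hz, ← hφ.2 a (t1 Ω)]
    exact map_zero φ
  set y0 : Y.carrier := g z with hy0
  set y : Y.carrier := y0 - Y.left 1 y0 - Y.right 1 y0 + Y.left 1 (Y.right 1 y0) with hy
  have hyl : ∀ a, Y.left a y = 0 := fun a => by
    have h1 : ∀ x, Y.left a (Y.left 1 x) = Y.left a x := fun x => by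
      rw [← Y.left_mul, mul_one]
    rw [hy, map_add, map_sub, map_sub, h1, h1]
    abel
  have hyr : ∀ a, Y.right a y = 0 := fun a => by
    have h1 : ∀ x, Y.right a (Y.right 1 x) = Y.right a x := fun x => by
      rw [← Y.right_mul, one_mul]
    rw [hy, map_add, map_sub, map_sub, h1, Y.left_right 1 1 y0, h1]
    abel
  have hsy : σ y = z := by
    have h0 : σ y0 = z := hg z
    rw [hy, map_add, map_sub, map_sub, hσ.1, hσ.2, hσ.1, hσ.2, h0, hzl, hzr, map_zero]
    simp
  refine ⟨(ContinuousLinearMap.toSpanSingleton ℂ y : ℂ →L[ℂ] Y.carrier), ⟨?_, ?_⟩, ?_⟩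
  · intro a x
    show (0 : ℂ) • y = Y.left a ((show ℂ from x) • y)
    rw [zero_smul, map_smul, hyl, smul_zero]
  · intro a x
    show (0 : ℂ) • y = Y.right a ((show ℂ from x) • y)
    rw [zero_smul, map_smul, hyr, smul_zero]
  · intro p
    show σ ((show ℂ from p) • y) = φ p
    rw [map_smul, hsy, hz, ← map_smul]
    congr 1
    exact (T0_smul Ω p).symm

/-- restriction of the codomain to `C0 univ` -/
def toC0 : C(Ω, ℂ) →L[ℂ] C0 (Set.univ : Set Ω) :=
  (ContinuousLinearMap.id ℂ C(Ω, ℂ)).codRestrict (C0 (Set.univ : Set Ω))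
    (fun x w hw => absurd (Set.mem_univ w) hw)

lemma toC0_val (f : C(Ω, ℂ)) : (toC0 Ω f).1 = f := rfl

lemma se : SE (Ib (Set.univ : Set Ω)) (plusBim C(Ω, ℂ)) (T0 Ω) := by
  refine ⟨(pin C(Ω, ℂ)).comp (C0 (Set.univ : Set Ω)).subtypeL, pfst C(Ω, ℂ),
    (toC0 Ω).comp (psnd C(Ω, ℂ) + (ContinuousLinearMap.toSpanSingleton ℂ (1 : C(Ω, ℂ))).comp
      (pfst C(Ω, ℂ))),
    ContinuousLinearMap.toSpanSingleton ℂ (WithLp.toLp 1 ((1 : ℂ), -(1 : C(Ω, ℂ))) :
      Plus C(Ω, ℂ)), ⟨?_, ?_⟩, ⟨?_, ?_⟩, ?_, ?_, ?_, ?_⟩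
  · intro a x
    refine plus_ext rfl ?_
    show a * x.1 = (0 : ℂ) • a + a * x.1
    rw [zero_smul, zero_add]
  · intro a x
    refine plus_ext rfl ?_
    show a * x.1 = (0 : ℂ) • a + x.1 * a
    rw [zero_smul, zero_add, mul_comm]
  · intro a x
    rfl
  · intro a x
    rfl
  · intro x
    refine Subtype.ext ?_
    show x.1 + (0 : ℂ) • (1 : C(Ω, ℂ)) = x.1
    rw [zero_smul, add_zero]
  · intro x
    show (show ℂ from x) * 1 = x
    exact mul_one _
  · intro x
    refine plus_ext ?_ ?_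
    · show (0 : ℂ) + (pfst C(Ω, ℂ) x) * 1 = x.fst
      rw [mul_one, zero_add]
      rfl
    · show (x.snd + x.fst • (1 : C(Ω, ℂ))) + x.fst • (-(1 : C(Ω, ℂ))) = x.snd
      rw [smul_neg]
      abel
  · intro x
    rfl

theorem plus_of (hs : S_HS) (mono : S_MONO) : S_PLUS := by
  intro Ω _ _ _ n h
  have hT : ∀ n, Dn n (T0 Ω) := by
    intro n
    induction n with
    | zero => exact T0_projective Ω
    | succ n ih => exact mono _ n _ ih
  exact hs _ n _ _ _ (se Ω) h (hT n)

end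

end Pool.Agent.W565.DT
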